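import Pool.Agent.Helper99.BT.Defs

/-!
# BT, C2: admissible cut points are the cut points of the list
-/

set_option autoImplicit false

namespace Pool.Agent.Helper14.BT

open Finset Pool.Agent.Helper99.BT
open Pool.Agent.Helper99.NK (times)

variable {C : Type} {q J w : ℕ} {H : Fin q → C}

theorem times_append (l l' : List C) (x : C) : times (l ++ l') x = times l x + times l' x := by
  classical
  unfold times
  exact List.count_append

theorem times_nil (x : C) : times ([] : List C) x = 0 := by
  classical
  unfold times
  exact List.count_nil

theorem adv_adv (v : Fin q → ℕ) (p p' : List C) :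
    adv H w (adv H w v p) p' = adv H w v (p ++ p') := by
  funext i
  unfold adv
  rw [times_append]
  omega

theorem adv_zero_nil : adv H w (0 : Fin q → ℕ) ([] : List C) = 0 := by
  funext i
  unfold adv
  rw [times_nil]
  simp

theorem kap_mono (v : Fin q → ℕ) (p p' : List C) :
    kap (adv H w v p) ≤ kap (adv H w v (p ++ p')) := by
  unfold kap
  refine Finset.sum_le_sum fun i _ => ?_
  unfold adv
  rw [times_append]
  omega

theorem kap_take_mono (l : List C) {s t : ℕ} (h : s ≤ t) :
    kap (adv H w (0 : Fin q → ℕ) (l.take s)) ≤ kap (adv H w 0 (l.take t)) := by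
  have h1 : l.take t = l.take s ++ (l.drop s).take (t - s) := by
    have := List.take_add (l := l) (i := s) (j := t - s)
    rw [Nat.add_sub_cancel' h] at this
    exact this
  rw [h1]
  exact kap_mono 0 _ _

/-- C2: admissible cut points with `WinP` are the cut points of the list. -/
theorem adm_unique {b : ℕ → ℕ} {V : ℕ → Fin q → ℕ} (h : Adm J b V) {l : List C} (hl : b J = l.length)
    (hw : ∀ j < J, WinP H w j (V j) (V (j + 1)) (seg b l j)) :
    ∀ j ≤ J, b j = cutp H w l j ∧ V j = adv H w 0 (l.take (b j)) := by
  have htake : ∀ j, l.take (b (j + 1)) = l.take (b j) ++ seg b l j := by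
    intro j
    have hm := h.mono (Nat.le_succ j)
    have := List.take_add (l := l) (i := b j) (j := b (j + 1) - b j)
    rw [Nat.add_sub_cancel' hm] at this
    exact this
  have hV : ∀ j ≤ J, V j = adv H w 0 (l.take (b j)) := by
    intro j
    induction j with
    | zero =>
      intro _
      rw [h.b0, List.take_zero, adv_zero_nil, h.v0]
    | succ j ih =>
      intro hj
      rw [htake j, ← adv_adv, ← ih (by omega)]
      exact (hw j (by omega)).2.symm
  have hbJ : ∀ j ≤ J, b j ≤ l.length := by
    intro j hj
    rw [← hl]
    exact h.mono hj
  -- inside the windows the sum of the counters is small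
  have hsmall : ∀ j ≤ J, ∀ t < b j, kap (adv H w 0 (l.take t)) < j := by
    intro j
    induction j with
    | zero =>
      intro _ t ht
      rw [h.b0] at ht
      exact absurd ht (Nat.not_lt_zero _)
    | succ j ih =>
      intro hj t ht
      rcases Nat.lt_or_ge t (b j) with h1 | h1
      · exact (ih (by omega) t h1).trans (Nat.lt_succ_self j)
      · have hlen : (seg b l j).length = b (j + 1) - b j := by
          unfold seg
          rw [List.length_take, List.length_drop]
          have := hbJ (j + 1) hj
          omega
        have h2 : l.take t = l.take (b j) ++ (seg b l j).take (t - b j) := by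
          have h3 := List.take_add (l := l) (i := b j) (j := t - b j)
          rw [Nat.add_sub_cancel' h1] at h3
          rw [h3]
          congr 1
          unfold seg
          rw [List.take_take]
          congr 1
          omega
        rw [h2, ← adv_adv, ← hV j (by omega)]
        exact Nat.lt_succ_of_le ((hw j (by omega)).1 (t - b j) (by rw [hlen]; omega))
  have hbig : ∀ j ≤ J, ∀ t < l.length, b j ≤ t → j ≤ kap (adv H w 0 (l.take t)) := by
    intro j hj t ht hbt
    rcases Nat.eq_zero_or_pos j with h0 | h0
    · subst h0
      exact Nat.zero_le _
    · obtain ⟨i, rfl⟩ : ∃ i, j = i + 1 := ⟨j - 1, by omega⟩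
      rcases h.next i (by omega) with h1 | h1
      · rw [hV (i + 1) hj] at h1
        exact h1.trans_le (kap_take_mono l hbt)
      · omega
  intro j hj
  refine ⟨?_, hV j hj⟩
  unfold cutp
  have h1 : (range l.length).filter (fun t => kap (adv H w 0 (l.take t)) < j) = range (b j) := by
    ext t
    rw [mem_filter, mem_range, mem_range]
    constructor
    · rintro ⟨h2, h3⟩
      by_contra h4
      have := hbig j hj t h2 (by omega)
      omega
    · intro h2
      exact ⟨h2.trans_le (hbJ j hj), hsmall j hj t h2⟩
  rw [h1, card_range]

end Pool.Agent.Helper14.BT
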